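import Mathlib
import Pool.Agent.H19.CE

set_option autoImplicit false

namespace Pool.Agent.Results.MP_0be8ec_al.NonPI

open Pool.Agent.H19 Pool.Agent.H19.CE in
/-- An abelian group whose endomorphism ring is centrally essential and satisfies no nonzero
polynomial identity with integer coefficients. -/
theorem result : ∃ (A : Type) (_ : AddCommGroup A),
    (∀ a : AddMonoid.End A, a ≠ 0 → ∃ x ∈ Subring.center (AddMonoid.End A),
      ∃ y ∈ Subring.center (AddMonoid.End A), x ≠ 0 ∧ y ≠ 0 ∧ a * x = y) ∧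
    ∀ f : FreeAlgebra ℤ ℕ, (∀ r : ℕ → AddMonoid.End A, FreeAlgebra.lift ℤ r f = 0) → f = 0 := by
  obtain ⟨A, _, ⟨e⟩⟩ := Real.realize R1 (sep_pi _ sep_B)
  refine ⟨A, inferInstance, (ce_R1.equiv e).out, fun f h => nonPI_R1 f fun r => e.injective ?_⟩
  have : e.toRingHom.toIntAlgHom.comp (FreeAlgebra.lift ℤ r) =
      FreeAlgebra.lift ℤ (fun i => e (r i)) := by
    ext i
    simp
  rw [map_zero, ← h fun i => e (r i), ← this]
  rfl

end Pool.Agent.Results.MP_0be8ec_al.NonPI
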